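import Mathlib
import Pool.Agent.Work.MP_db9399_px.Interface

/-!
# MP_db9399, PARTX, block WALK: a lazy walk through a set which is connected in steps of length 4
-/

set_option autoImplicit false

namespace Pool.Agent.Work.MP_db9399_px.helper89

open Finset Classical
open Pool.Agent.Work.MP_db9399_all (nb pr DepOnI)
open Pool.Agent.Work.MP_db9399_px

universe u

section
variable {V : Type u}

/-- insertion of a walk of length 4 and its reverse at the time `i` -/
theorem walk_insert (G : SimpleGraph V) (l : ℕ) (w : ℕ → V) (hw : LWalk G l w) (i : ℕ)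
    (hi : i ≤ l) (z : ℕ → V) (hz : LWalk G 4 z) (h0 : z 0 = w i) :
    ∃ w' : ℕ → V, LWalk G (l + 8) w' ∧ w' 0 = w 0 ∧ (∀ j ≤ l, ∃ j' ≤ l + 8, w' j' = w j) ∧
      ∃ j' ≤ l + 8, w' j' = z 4 := by
  have hz0 := hz 0 (by norm_num)
  have hz1 := hz 1 (by norm_num)
  have hz2 := hz 2 (by norm_num)
  have hz3 := hz 3 (by norm_num)
  simp only [Nat.zero_add, Nat.reduceAdd] at hz0 hz1 hz2 hz3
  set w' : ℕ → V := fun j => if j ≤ i then w j else if j = i + 1 then z 1 else
    if j = i + 2 then z 2 else if j = i + 3 then z 3 else if j = i + 4 then z 4 else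
    if j = i + 5 then z 3 else if j = i + 6 then z 2 else if j = i + 7 then z 1 else w (j - 8)
    with hw'
  have e0 : ∀ j, j ≤ i → w' j = w j := fun j hj => by simp only [hw']; rw [if_pos hj]
  have e1 : w' (i + 1) = z 1 := by simp [hw']
  have e2 : w' (i + 2) = z 2 := by simp [hw']
  have e3 : w' (i + 3) = z 3 := by simp [hw']
  have e4 : w' (i + 4) = z 4 := by simp [hw']
  have e5 : w' (i + 5) = z 3 := by simp [hw']
  have e6 : w' (i + 6) = z 2 := by simp [hw']
  have e7 : w' (i + 7) = z 1 := by simp [hw']
  have e8 : ∀ k, w' (i + 8 + k) = w (i + k) := by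
    intro k
    simp only [hw']
    rw [if_neg (by omega), if_neg (by omega), if_neg (by omega), if_neg (by omega),
      if_neg (by omega), if_neg (by omega), if_neg (by omega), if_neg (by omega)]
    congr 1
    omega
  have sw : ∀ a b : V, (b = a ∨ G.Adj a b) → (a = b ∨ G.Adj b a) := by
    intro a b h
    rcases h with h | h
    · exact Or.inl h.symm
    · exact Or.inr h.symm
  refine ⟨w', ?_, e0 0 (Nat.zero_le _), ?_, ⟨i + 4, by omega, e4⟩⟩
  · intro j hj
    rcases lt_or_ge j i with h | h
    · rw [e0 j h.le, e0 (j + 1) h]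
      exact hw j (by omega)
    · obtain ⟨k, rfl⟩ := Nat.exists_eq_add_of_le h
      rcases lt_or_ge k 8 with h8 | h8
      · interval_cases k
        · simp only [Nat.add_zero]; rw [e0 i le_rfl, e1, ← h0]; exact hz0
        · rw [show i + 1 + 1 = i + 2 by omega, e1, e2]; exact hz1
        · rw [show i + 2 + 1 = i + 3 by omega, e2, e3]; exact hz2
        · rw [show i + 3 + 1 = i + 4 by omega, e3, e4]; exact hz3
        · rw [show i + 4 + 1 = i + 5 by omega, e4, e5]; exact sw _ _ hz3
        · rw [show i + 5 + 1 = i + 6 by omega, e5, e6]; exact sw _ _ hz2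
        · rw [show i + 6 + 1 = i + 7 by omega, e6, e7]; exact sw _ _ hz1
        · rw [show i + 7 + 1 = i + 8 + 0 by omega, e7, e8, Nat.add_zero, ← h0]
          exact sw _ _ hz0
      · obtain ⟨m, rfl⟩ := Nat.exists_eq_add_of_le h8
        rw [show i + (8 + m) + 1 = i + 8 + (m + 1) by omega,
          show i + (8 + m) = i + 8 + m by omega, e8, e8]
        exact hw (i + m) (by omega)
  · intro j hj
    rcases le_or_gt j i with h | h
    · exact ⟨j, by omega, e0 j h⟩
    · obtain ⟨k, rfl⟩ := Nat.exists_eq_add_of_le h.le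
      exact ⟨i + 8 + k, by omega, e8 k⟩

end

/-- WALK -/
theorem stmt_WALK : Stmt_WALK.{u} := by
  intro V _ G U x hx H
  have key : ∀ k : ℕ, k ≤ U.card → 1 ≤ k → ∃ w : ℕ → V, LWalk G (8 * k) w ∧ w 0 = x ∧
      k ≤ (U.filter (fun v => ∃ i ≤ 8 * k, w i = v)).card := by
    intro k
    induction k with
    | zero => intro _ h; omega
    | succ k ih =>
      intro hk _
      rcases Nat.eq_zero_or_pos k with h0 | hpos
      · subst h0
        refine ⟨fun _ => x, fun i _ => Or.inl rfl, rfl, ?_⟩
        have : x ∈ U.filter (fun v => ∃ i ≤ 8 * (0 + 1), (fun _ : ℕ => x) i = v) :=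
          mem_filter.2 ⟨hx, 0, by omega, rfl⟩
        simpa using Finset.card_pos.2 ⟨x, this⟩
      · obtain ⟨w, hw, hw0, hc⟩ := ih (by omega) hpos
        set U1 := U.filter (fun v => ∃ i ≤ 8 * k, w i = v) with hU1
        by_cases hUU : U1 = U
        · refine ⟨fun j => w (min j (8 * k)), ?_, ?_, ?_⟩
          · intro j hj
            rcases lt_or_ge j (8 * k) with h | h
            · simp only [Nat.min_eq_left h.le, Nat.min_eq_left (Nat.succ_le_of_lt h)]
              exact hw j h
            · left
              simp only [Nat.min_eq_right h, Nat.min_eq_right (h.trans (Nat.le_succ j))]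
          · simpa using hw0
          · have : U ⊆ U.filter (fun v => ∃ i ≤ 8 * (k + 1), (fun j => w (min j (8 * k))) i = v) := by
              intro v hv
              have hv' : v ∈ U1 := by rw [hUU]; exact hv
              obtain ⟨_, i, hi, hwi⟩ := mem_filter.1 hv'
              refine mem_filter.2 ⟨hv, i, by omega, ?_⟩
              simp only [Nat.min_eq_left hi, hwi]
            exact hk.trans (card_le_card this)
        · obtain ⟨u, hu, v, hvU, hv1, z, hz, hz0, hz4⟩ := H U1 (filter_subset _ _)
            (mem_filter.2 ⟨hx, 0, Nat.zero_le _, hw0⟩) hUU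
          obtain ⟨_, i, hi, hwi⟩ := mem_filter.1 hu
          obtain ⟨w', hw', hw'0, hcov, j4, hj4, hj4'⟩ := walk_insert G (8 * k) w hw i hi z hz
            (hz0.trans hwi.symm)
          refine ⟨w', ?_, hw'0.trans hw0, ?_⟩
          · rw [show 8 * (k + 1) = 8 * k + 8 by ring]; exact hw'
          · have hsub : insert v U1 ⊆ U.filter (fun v => ∃ i ≤ 8 * (k + 1), w' i = v) := by
              intro y hy
              rcases mem_insert.1 hy with rfl | hy
              · exact mem_filter.2 ⟨hvU, j4, by omega, hj4'.trans hz4⟩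
              · obtain ⟨hyU, j, hj, hwj⟩ := mem_filter.1 hy
                obtain ⟨j', hj', hw'j⟩ := hcov j hj
                exact mem_filter.2 ⟨hyU, j', by omega, hw'j.trans hwj⟩
            have := card_le_card hsub
            rw [card_insert_of_notMem hv1] at this
            omega
  obtain ⟨w, hw, hw0, hc⟩ := key U.card le_rfl (Finset.card_pos.2 ⟨x, hx⟩)
  refine ⟨w, hw, hw0, ?_⟩
  have hfull : U.filter (fun v => ∃ i ≤ 8 * U.card, w i = v) = U :=
    eq_of_subset_of_card_le (filter_subset _ _) hc
  intro v hv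
  rw [← hfull] at hv
  exact (mem_filter.1 hv).2

end Pool.Agent.Work.MP_db9399_px.helper89
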