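import Mathlib
import Pool.Agent.Work.MP_db9399_px.Interface

/-!
# MP_db9399, PARTX, block LIN: concentration of the size of `A ∩ cc P` (assuming PBM and UNI)
-/

set_option autoImplicit false

namespace Pool.Agent.Work.MP_db9399_px.helper89

open Finset Classical
open Pool.Agent.Work.MP_db9399_all (nb pr DepOnI)
open Pool.Agent.Work.MP_db9399_px

universe u

section
variable {V : Type u} [Fintype V]

/-- number of vertices of `A` in the block of `y` -/
noncomputable def cb (blk : V → V) (A : Finset V) (y : V) : ℕ := (A.filter (fun v => blk v = y)).card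

theorem cb_le {M : ℕ} (blk : V → V) (pos : V → Fin M) (h : Blocks M blk pos) (A : Finset V)
    (y : V) : cb blk A y ≤ M := by
  have : ((A.filter (fun v => blk v = y)).image pos).card = (A.filter (fun v => blk v = y)).card :=
    card_image_of_injOn (fun v hv w hw hvw =>
      h v w (((mem_filter.1 hv).2).trans ((mem_filter.1 hw).2).symm) hvw)
  rw [cb, ← this]
  exact (card_le_univ _).trans (by rw [Fintype.card_fin])

theorem sum_cb (blk : V → V) (A : Finset V) : ∑ y, cb blk A y = A.card := by
  have := card_eq_sum_card_fiberwise (s := A) (t := (univ : Finset V)) (f := blk)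
    (fun v _ => mem_coe.2 (mem_univ _))
  rw [this]
  rfl

theorem sum_cb_sq {M : ℕ} (blk : V → V) (pos : V → Fin M) (h : Blocks M blk pos) (A : Finset V) :
    ∑ y, (cb blk A y : ℝ) ^ 2 ≤ M * A.card := by
  have h1 : (A.card : ℝ) = ∑ y, (cb blk A y : ℝ) := by rw [← sum_cb blk A]; push_cast; rfl
  rw [h1, mul_sum]
  refine sum_le_sum fun y _ => ?_
  have h2 : (cb blk A y : ℝ) ≤ M := by exact_mod_cast cb_le blk pos h A y
  have h3 : (0 : ℝ) ≤ cb blk A y := Nat.cast_nonneg _
  nlinarith

/-- the set `A ∩ cc P` as a filter -/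
theorem inter_cc (M : ℕ) (blk : V → V) (pos : V → Fin M) (f : V → Fin (M.factorial))
    (P : Finset (Fin M)) (A : Finset V) :
    A ∩ cc M blk pos f P = A.filter (fun v => atm M blk pos f v ∈ P) := by
  ext v; simp [cc]

/-- influence of one block -/
theorem lin_infl (M : ℕ) (blk : V → V) (pos : V → Fin M) (P : Finset (Fin M)) (A : Finset V)
    (y : V) (f f' : V → Fin (M.factorial)) (h : ∀ z, z ≠ y → f z = f' z) :
    ((A ∩ cc M blk pos f P).card : ℝ) - ((A ∩ cc M blk pos f' P).card : ℝ) ≤ cb blk A y := by
  have hsub : A ∩ cc M blk pos f P ⊆ (A ∩ cc M blk pos f' P) ∪ A.filter (fun v => blk v = y) := by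
    intro v hv
    rw [inter_cc, mem_filter] at hv
    by_cases hb : blk v = y
    · exact mem_union_right _ (mem_filter.2 ⟨hv.1, hb⟩)
    · refine mem_union_left _ ?_
      rw [inter_cc, mem_filter]
      refine ⟨hv.1, ?_⟩
      have : atm M blk pos f' v = atm M blk pos f v := by simp only [atm]; rw [h _ hb]
      rw [this]; exact hv.2
  have := (card_le_card hsub).trans (card_union_le _ _)
  have h2 : ((A ∩ cc M blk pos f P).card : ℝ) ≤ ((A ∩ cc M blk pos f' P).card : ℝ) +
      ((A.filter (fun v => blk v = y)).card : ℝ) := by exact_mod_cast this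
  simp only [cb]
  linarith

/-- the average of the size of a random subset -/
theorem avg_card {Ω : Type u} [Fintype Ω] (E : V → Ω → Prop) (A : Finset V) :
    avg (fun ω : Ω => ((A.filter (fun v => E v ω)).card : ℝ)) = ∑ v ∈ A, pr (E v) := by
  simp only [avg, pr]
  rw [← sum_div]
  congr 1
  have : ∀ ω : Ω, ((A.filter (fun v => E v ω)).card : ℝ) =
      ∑ v ∈ A, (if E v ω then (1 : ℝ) else 0) := by
    intro ω
    rw [sum_ite]; simp
  simp only [this]
  rw [sum_comm]
  refine sum_congr rfl fun v _ => ?_
  rw [sum_ite]; simp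

end

/-- LIN, from PBM and UNI -/
theorem stmt_LIN (hP : Stmt_PBM.{u}) (hU : Stmt_UNI.{u}) : Stmt_LIN.{u} := by
  intro V _ M blk pos P A t hM hB hA ht
  have hA0 : (0 : ℝ) < A.card := by exact_mod_cast hA.card_pos
  have hM0 : (0 : ℝ) < M := by exact_mod_cast hM
  have havg : avg (fun f : V → Fin (M.factorial) => ((A ∩ cc M blk pos f P).card : ℝ)) =
      (P.card : ℝ) / M * A.card := by
    have h1 := avg_card (fun v (f : V → Fin (M.factorial)) => atm M blk pos f v ∈ P) A
    have h2 : ∑ v ∈ A, pr (fun f => atm M blk pos f v ∈ P) = (P.card : ℝ) / M * A.card := by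
      rw [sum_congr rfl (fun v _ => (hU M blk pos P P hM hB).1 v)]
      rw [sum_const, nsmul_eq_mul]
      ring
    rw [← h2, ← h1]
    congr 1
    funext f
    rw [inter_cc]
    congr 2
    ext v
    simp only [mem_filter]
  have key := hP (J := V) M.factorial (fun f => ((A ∩ cc M blk pos f P).card : ℝ))
    (fun y => (cb blk A y : ℝ)) (M * A.card) t (Nat.factorial_pos M) ?_
    (sum_cb_sq blk pos hB A) (mul_pos hM0 hA0) ht
  · rw [havg] at key
    exact key
  · intro y f f' h
    rw [abs_le]
    constructor
    · have := lin_infl M blk pos P A y f' f (fun z hz => (h z hz).symm)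
      linarith
    · exact lin_infl M blk pos P A y f f' h

end Pool.Agent.Work.MP_db9399_px.helper89
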