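import Mathlib
import Pool.Agent.Work.MP_db9399_px.LInterface

/-!
# MP_db9399, PARTX, block LPKV: the package of a vertex (from LIN and EVS)
-/

set_option autoImplicit false

namespace Pool.Agent.Work.MP_db9399_px.helper89

open Finset Classical
open Pool.Agent.Work.MP_db9399_all (nb pr DepOnI PackI)
open Pool.Agent.Work.MP_db9399_px

universe u

section
variable {V : Type u} [Fintype V]

theorem pr_le_of_imp {Ω : Type u} [Fintype Ω] {E E' : Ω → Prop} (h : ∀ ω, E ω → E' ω) :
    pr E ≤ pr E' := by
  simp only [pr]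
  refine div_le_div_of_nonneg_right ?_ (Nat.cast_nonneg _)
  exact_mod_cast card_le_card (fun ω hω => mem_filter.2 ⟨mem_univ _, h ω (mem_filter.1 hω).2⟩)

theorem self_lball (G : SimpleGraph V) (k : ℕ) (v : V) : v ∈ lball G k v :=
  mem_filter.2 ⟨mem_univ _, fun _ => v, fun _ _ => Or.inl rfl, rfl, rfl⟩

theorem nb_lball (G : SimpleGraph V) (k : ℕ) (v z : V) (h : z ∈ nb G v) : z ∈ lball G (k + 1) v := by
  have ha : G.Adj v z := by simpa [nb] using h
  refine mem_filter.2 ⟨mem_univ _, fun j => if j = 0 then v else z, ?_, by simp, by simp⟩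
  intro i _
  rcases Nat.eq_zero_or_pos i with h0 | h0
  · subst h0
    right
    simpa using ha
  · left
    simp [h0.ne']

theorem inter_cc_congr (G : SimpleGraph V) (M : ℕ) (blk : V → V) (pos : V → Fin M)
    (P : Finset (Fin M)) (v : V) (f f' : V → Fin (M.factorial))
    (h : ∀ y ∈ insert (blk v) ((nb G v).image blk), f y = f' y) :
    nb G v ∩ cc M blk pos f P = nb G v ∩ cc M blk pos f' P := by
  ext z
  simp only [mem_inter, cc, mem_filter, mem_univ, true_and]
  refine and_congr_right fun hz => ?_
  have : atm M blk pos f z = atm M blk pos f' z := by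
    simp only [atm]
    rw [h (blk z) (mem_insert_of_mem (mem_image_of_mem _ hz))]
  rw [this]

end

/-- LPKV, from LIN and EVS -/
theorem stmt_LPKV (hL : Stmt_LIN.{u}) (hE : Stmt_EVS.{u}) : Stmt_LPKV.{u} := by
  intro M σ δ hM hσ hσ1 hδ hδ1
  obtain ⟨d0, hd0, H⟩ := hE M δ hM hδ hδ1
  refine ⟨d0, hd0, ?_⟩
  intro V _ G d blk pos v hd hdeg hB
  have hM1 : (1 : ℝ) ≤ M := by exact_mod_cast hM
  have hd1 : (1 : ℝ) ≤ d := by exact_mod_cast hd0.trans hd
  set s : ℝ := σ ^ 2 / (200 * (M : ℝ) ^ 5) with hs
  have hs1 : s ≤ 1 / 200 := by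
    rw [hs, div_le_div_iff₀ (by positivity) (by norm_num)]
    have h1 : σ ^ 2 ≤ 1 := by nlinarith
    have h2 : (1 : ℝ) ≤ (M : ℝ) ^ 5 := one_le_pow₀ hM1
    nlinarith
  have hs0 : 0 < s := by rw [hs]; positivity
  set T : ℝ := s / (16 * (d + 1)) with hT
  have hT0 : 0 ≤ T := by rw [hT]; positivity
  set Q : Finset V := insert (blk v) ((nb G v).image blk) with hQ
  have hQc : (Q.card : ℝ) ≤ d + 1 := by
    have h1 : Q.card ≤ (nb G v).card + 1 :=
      (card_insert_le _ _).trans (by simpa using card_image_le)
    have h2 : Q.card ≤ d + 1 := h1.trans (by simpa using hdeg v)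
    exact_mod_cast h2
  have hexp : Real.exp (2 * T * Q.card) ≤ 2 := by
    have h1 : 2 * T * Q.card ≤ 1 / 2 := by
      have h2 : 2 * T * Q.card ≤ 2 * T * (d + 1) :=
        mul_le_mul_of_nonneg_left hQc (by positivity)
      have h3 : 2 * T * (d + 1) = s / 8 := by
        rw [hT]; field_simp; norm_num
      linarith
    have h2 : Real.exp (2 * T * Q.card) ≤ Real.exp (1 / 2) := Real.exp_le_exp.2 h1
    have h3 : Real.exp (1 / 2) ≤ 2 := by
      have h4 : Real.exp (1 / 2) ^ 2 = Real.exp 1 := by
        rw [← Real.exp_nat_mul]; norm_num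
      have h5 := Real.exp_one_lt_d9
      have h6 : 0 < Real.exp (1 / 2) := Real.exp_pos _
      nlinarith
    linarith
  set X : ℝ := Real.exp (-(δ ^ 2 / (32 * M) * d)) with hX
  have hX0 : 0 < X := Real.exp_pos _
  let E : ULift.{u} (Finset (Fin M) × Bool) → (V → Fin (M.factorial)) → Prop := fun k f =>
    if k.down.2 = true then
      δ * (d : ℝ) ^ 2 < ee G (nb G v ∩ cc M blk pos f k.down.1) (nb G v ∩ cc M blk pos f k.down.1) -
          ((k.down.1.card : ℝ) / M) ^ 2 * ee G (nb G v) (nb G v)
    else δ * d < |((nb G v ∩ cc M blk pos f k.down.1).card : ℝ) -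
      (k.down.1.card : ℝ) / M * (nb G v).card|
  have hpr : ∀ k, pr (E k) ≤ 2 * X := by
    rintro ⟨⟨P, b⟩⟩
    cases b with
    | true =>
      have := H G d blk pos P v hd hdeg hB
      simpa [E] using this
    | false =>
      rcases (nb G v).eq_empty_or_nonempty with h0 | h0
      · have hE0 : ∀ f, ¬ E ⟨(P, false)⟩ f := by
          intro f hf
          simp only [E, Bool.false_eq_true, if_false, h0, empty_inter, card_empty, Nat.cast_zero,
            mul_zero, sub_zero, abs_zero] at hf
          have : 0 ≤ δ * (d : ℝ) := by positivity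
          linarith
        have : pr (E ⟨(P, false)⟩) = 0 := by
          simp only [pr]
          rw [filter_false_of_mem (fun f _ => hE0 f)]
          simp
        rw [this]; positivity
      · have h1 : pr (E ⟨(P, false)⟩) ≤ pr (fun f => δ * (d : ℝ) ≤
            |((nb G v ∩ cc M blk pos f P).card : ℝ) - (P.card : ℝ) / M * (nb G v).card|) := by
          refine pr_le_of_imp fun f hf => ?_
          simp only [E, Bool.false_eq_true, if_false] at hf
          exact hf.le
        have h2 := hL M blk pos P (nb G v) (δ * d) hM hB h0 (by positivity)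
        have h3 : Real.exp (-(δ * d) ^ 2 / (2 * (M * (nb G v).card))) ≤ X := by
          rw [hX]
          refine Real.exp_le_exp.2 ?_
          have hc0 : (0 : ℝ) < (nb G v).card := by exact_mod_cast h0.card_pos
          have hc1 : ((nb G v).card : ℝ) ≤ d := by exact_mod_cast hdeg v
          rw [neg_div, neg_le_neg_iff, le_div_iff₀ (by positivity)]
          have e1 : δ ^ 2 / (32 * M) * d * (2 * (M * (nb G v).card)) =
              δ ^ 2 * d * (nb G v).card / 16 := by
            have : (M : ℝ) ≠ 0 := by positivity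
            field_simp; norm_num
          rw [e1]
          have e2 : δ ^ 2 * d * (nb G v).card ≤ δ ^ 2 * d * d :=
            mul_le_mul_of_nonneg_left hc1 (by positivity)
          have e3 : 0 ≤ δ ^ 2 * d * (nb G v).card := by positivity
          nlinarith
        linarith
  refine ⟨ULift.{u} (Finset (Fin M) × Bool), inferInstance, fun _ => Q, E, ?_, ?_, ?_, ?_, ?_⟩
  · rintro ⟨⟨P, b⟩⟩ f f' h
    have hc := inter_cc_congr G M blk pos P v f f' h
    simp only [E, hc]
  · intro _
    exact ⟨_, mem_insert_self _ _⟩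
  · intro _
    rw [hQ]
    refine insert_subset (mem_image_of_mem _ (self_lball G 4 v)) ?_
    exact image_subset_image (fun z hz => nb_lball G 3 v z hz)
  · have h1 : ∀ k ∈ (univ : Finset (ULift.{u} (Finset (Fin M) × Bool))),
        pr (E k) * Real.exp (2 * T * (Q.card : ℝ)) ≤ 4 * X := by
      intro k _
      have h2 := hpr k
      have h3 : 0 < Real.exp (2 * T * (Q.card : ℝ)) := Real.exp_pos _
      calc pr (E k) * Real.exp (2 * T * (Q.card : ℝ)) ≤ (2 * X) * 2 :=
            mul_le_mul h2 hexp h3.le (by positivity)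
        _ = 4 * X := by ring
    refine (sum_le_card_nsmul _ _ _ h1).trans ?_
    rw [card_univ, Fintype.card_ulift, Fintype.card_prod, Fintype.card_finset, Fintype.card_fin,
      Fintype.card_bool, nsmul_eq_mul]
    push_cast
    have h2 : (2 : ℝ) ^ M ≤ 4 ^ M := pow_le_pow_left₀ (by norm_num) (by norm_num) M
    have h3 : (0 : ℝ) < 2 ^ M := by positivity
    nlinarith
  · intro f hf P
    constructor
    · have := hf ⟨(P, false)⟩
      simp only [E, Bool.false_eq_true, if_false, not_lt] at this
      exact this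
    · have := hf ⟨(P, true)⟩
      simp only [E, if_true, not_lt] at this
      linarith

end Pool.Agent.Work.MP_db9399_px.helper89
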